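import Pool.Agent.W353.SN.Cnt

/-! The limit of the sizes as a class function on the group of the permutations of the embeddings. -/

set_option autoImplicit false
set_option linter.unusedSectionVars false

namespace Pool.Agent.W353.SN

open Complex Filter Topology ComplexConjugate NumberField IsDedekindDomain Asymptotics
  Pool.Agent.W401.Cheb Pool.Agent.W540.BE Pool.Agent.W353.L1 Pool.Agent.W353.NF
open Pool.Agent.W353.TP (HX sysH LL LL_tendsto)
open Pool.Agent.W353.AB (Sy)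
open Pool.Agent.H341R2 (lam)

/-- a limit along an ultrafilter -/
theorem exists_ulim (𝒰 : Ultrafilter ℝ) (h𝒰 : (𝒰 : Filter ℝ) ≤ 𝓝[>] 0) {f : ℝ → ℝ} {C : ℝ}
    (h : ∀ᶠ ε : ℝ in 𝓝[>] 0, |f ε| ≤ C) : ∃ x, Tendsto f 𝒰 (𝓝 x) := by
  obtain ⟨x, -, hx⟩ := (isCompact_Icc (a := -C) (b := C)).ultrafilter_le_nhds (𝒰.map f) (by
    rw [le_principal_iff, Ultrafilter.coe_map, mem_map]
    refine (h.filter_mono h𝒰).mono fun ε hε => ?_
    exact ⟨(abs_le.1 hε).1, (abs_le.1 hε).2⟩)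
  exact ⟨x, hx⟩

section
variable {K : Type} [Field K] [NumberField K]

/-- sizes of the same function agree in the limit -/
theorem SzH_unique {T : HX K → ℝ} {Ψ : HeightOneSpectrum (𝓞 K) → ℝ} {X X' : ℝ → ℝ}
    (h : SzH T Ψ X) (h' : SzH T Ψ X') : Tendsto (fun ε => X ε - X' ε) (𝓝[>] 0) (𝓝 0) := by
  unfold SzH at h h'
  have h1 := (h.sub h').tendsto_div_nhds_zero
  refine h1.congr' ?_
  filter_upwards [LL_tendsto.eventually_gt_atTop 0] with ε hε
  have hne : LL ε ≠ 0 := ne_of_gt hε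
  field_simp
  ring

variable {F : Type} [Field F] [NumberField F] [Algebra K F]

/-- the size of the conjugation count of `g` -/
noncomputable def thE (𝒮 : Sy K) (σ : HeightOneSpectrum (𝓞 K) → GK K) (τ : ℝ) (g : PX K F)
    (ε : ℝ) : ℝ :=
  (sysH K).E ε (fun x => TT 𝒮 x * ((Dn g (act K F (σ (vx x))) : ℝ) * cz τ (vx x))) / LL ε

theorem thE_size (𝒮 : Sy K) (σ : HeightOneSpectrum (𝓞 K) → GK K) (τ : ℝ) (g : PX K F) :
    SzH (TT 𝒮) (fun v => (Dn g (act K F (σ v)) : ℝ) * cz τ v) (thE 𝒮 σ τ g) := by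
  unfold SzH
  refine (isLittleO_zero (E' := ℝ) LL (𝓝[>] (0 : ℝ))).congr' ?_ (EventuallyEq.refl _ _)
  filter_upwards [LL_tendsto.eventually_gt_atTop 0] with ε hε
  unfold thE
  rw [div_mul_cancel₀ _ (ne_of_gt hε), sub_self]

theorem Dn_le (g x : PX K F) : (Dn g x : ℝ) ≤ Nat.card (PX K F) := by
  have h : Dn g x ≤ Nat.card (PX K F) :=
    Nat.card_le_card_of_injective Subtype.val Subtype.val_injective
  exact_mod_cast h

theorem abs_Dcz (g : PX K F) (σ : HeightOneSpectrum (𝓞 K) → GK K) (τ : ℝ)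
    (v : HeightOneSpectrum (𝓞 K)) :
    |(Dn g (act K F (σ v)) : ℝ) * cz τ v| ≤ Nat.card (PX K F) := by
  rw [abs_mul, abs_of_nonneg (Nat.cast_nonneg _)]
  calc (Dn g (act K F (σ v)) : ℝ) * |cz τ v| ≤ Nat.card (PX K F) * 1 :=
        mul_le_mul (Dn_le _ _) (abs_cz _ _) (abs_nonneg _) (by positivity)
    _ = _ := mul_one _

theorem thE_le (𝒮 : Sy K) (hs : Function.Surjective (act K F))
    (σ : HeightOneSpectrum (𝓞 K) → GK K) (hσ : ∀ v, IsFrob v (σ v)) (τ : ℝ) (g : PX K F) {η : ℝ}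
    (hη : 0 < η) :
    ∀ᶠ ε : ℝ in 𝓝[>] 0, |thE 𝒮 σ τ g ε| ≤ (∑ j ∈ 𝒮.P, 𝒮.b j) * kap τ + η := by
  have hopen := ker_act_open K F
  have hfin : Finite (GK K ⧸ (act K F).ker) := Subgroup.quotient_finite_of_isOpen _ hopen
  have hlim := real_mean (act K F).ker hopen (fun σ => (Dn g (act K F σ) : ℝ)) (by
      intro ρ u hu
      rw [map_mul, (MonoidHom.mem_ker).1 hu, mul_one]) (by
      intro ρ u
      rw [map_mul, map_mul, map_inv, Dn_conj]) (by
      intro ρ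
      rw [map_inv, Dn_inv]) σ hσ τ
  rw [avR_Dn K F hs g, mul_one] at hlim
  exact size_le (Finset.sum_nonneg fun j hj => 𝒮.hb j hj) (abs_TT 𝒮) (abs_Dcz g σ τ)
    (thE_size 𝒮 σ τ g) (fun η' hη' =>
      (hlim.eventually_lt_const (lt_add_of_pos_right _ hη')).mono fun ε hε => hε.le) hη

/-- **The limit class function.** -/
theorem exists_theta (𝒮 : Sy K) (hreal : ∀ j ∈ 𝒮.P, ∀ x, (𝒮.T j x).im = 0)
    (hs : Function.Surjective (act K F)) (τ : ℝ) (𝒰 : Ultrafilter ℝ)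
    (h𝒰 : (𝒰 : Filter ℝ) ≤ 𝓝[>] 0) :
    ∃ θ : PX K F → ℝ, (∀ g, |θ g| ≤ (∑ j ∈ 𝒮.P, 𝒮.b j) * kap τ) ∧
      (∀ g u, θ (u * g * u⁻¹) = θ g) ∧
      ∀ (H : Subgroup (PX K F)) [NumberField (MH K F H)] (X : ℝ → ℝ),
        𝒮.IsSize (F := MH K F H) (fun _ => 1) τ X →
        Tendsto (fun ε => (Nat.card H : ℝ) * X ε) 𝒰 (𝓝 (∑ᶠ h : H, θ h)) := by
  classical
  choose σ hσ using exists_isFrob (F := K)
  have hex : ∀ g : PX K F, ∃ x, Tendsto (thE 𝒮 σ τ g) 𝒰 (𝓝 x) := fun g =>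
    exists_ulim 𝒰 h𝒰 (thE_le 𝒮 hs σ hσ τ g one_pos)
  choose θ hθ using hex
  refine ⟨θ, fun g => ?_, fun g u => ?_, fun H _ X hX => ?_⟩
  · refine le_of_forall_pos_le_add fun η hη => ?_
    exact le_of_tendsto (hθ g).abs ((thE_le 𝒮 hs σ hσ τ g hη).filter_mono h𝒰)
  · have e : thE 𝒮 σ τ (u * g * u⁻¹) = thE 𝒮 σ τ g := by
      funext ε
      unfold thE
      simp only [Dn_conj_left]
    have h1 := hθ (u * g * u⁻¹)
    rw [e] at h1
    exact tendsto_nhds_unique h1 (hθ g)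
  · let _ : Fintype H := Fintype.ofFinite H
    have h1 := SzH.sum (T := TT 𝒮) (Finset.univ : Finset H)
      (Ψ := fun h v => (Dn (h : PX K F) (act K F (σ v)) : ℝ) * cz τ v)
      (X := fun h => thE 𝒮 σ τ (h : PX K F)) (B := fun _ => (Nat.card (PX K F) : ℝ))
      (fun h _ => thE_size 𝒮 σ τ (h : PX K F)) (abs_TT 𝒮)
      (fun h _ v => abs_Dcz (h : PX K F) σ τ v) (fun _ => 1)
    have h2 := (size_fix 𝒮 hreal σ hσ hX).const_mul (Nat.card H : ℝ)
    have h3 := h1.congr (Ψ' := fun v => (Nat.card H : ℝ) *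
      ((fixn K (MH K F H) (σ v) : ℝ) * cz τ v)) (X' := fun ε => ∑ h : H, thE 𝒮 σ τ (h : PX K F) ε)
      (fun v => by
        have h4 := fixn_sum K F hs H (σ v)
        rw [finsum_eq_sum_of_fintype] at h4
        rw [← mul_assoc, ← h4, Finset.sum_mul]
        exact Finset.sum_congr rfl fun h _ => one_mul _)
      (fun ε => Finset.sum_congr rfl fun h _ => one_mul _)
    have h5 := (SzH_unique h3 h2).mono_left h𝒰
    have h6 : Tendsto (fun ε => (∑ h : H, thE 𝒮 σ τ (h : PX K F) ε)) 𝒰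
        (𝓝 (∑ h : H, θ (h : PX K F))) :=
      tendsto_finsetSum (Finset.univ : Finset H) fun (h : H) _ => hθ (h : PX K F)
    have h7 := h6.sub h5
    rw [sub_zero] at h7
    rw [finsum_eq_sum_of_fintype]
    refine h7.congr fun ε => ?_
    ring

end

end Pool.Agent.W353.SN
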