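import Pool.Agent.W353.SN.Step

/-! Permutations with a small centraliser in the group preserving their orbits. -/

set_option autoImplicit false
set_option linter.unusedSectionVars false

namespace Pool.Agent.W353.SN

open Equiv Equiv.Perm

section
variable {X : Type*} [Fintype X] [DecidableEq X]

/-- `k` commuting permutations preserving the orbits -/
def Many (k : ℕ) (g : Perm X) : Prop :=
  ∃ S : Finset (Perm X), S.card = k ∧ (∀ s ∈ S, s ∈ young g) ∧ ∀ s ∈ S, s * g = g * s

theorem self_young (g : Perm X) : g ∈ young g := fun _ => sameCycle_apply_right.2 SameCycle.rfl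

theorem many_pow {k : ℕ} {g : Perm X} (h : k ≤ orderOf g) : Many k g := by
  classical
  refine ⟨(Finset.range k).image fun i => g ^ i, ?_, ?_, ?_⟩
  · rw [Finset.card_image_of_injOn, Finset.card_range]
    intro i hi j hj hij
    rw [Finset.coe_range, Set.mem_Iio] at hi hj
    exact pow_injOn_Iio_orderOf (Set.mem_Iio.2 (lt_of_lt_of_le hi h))
      (Set.mem_Iio.2 (lt_of_lt_of_le hj h)) hij
  · intro s hs
    rw [Finset.mem_image] at hs
    obtain ⟨i, _, rfl⟩ := hs
    exact (young g).pow_mem (self_young g) i
  · intro s hs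
    rw [Finset.mem_image] at hs
    obtain ⟨i, _, rfl⟩ := hs
    rw [← pow_succ, ← pow_succ']

theorem five_card {a b c d e : Perm X} (f : Perm X → X × X × X)
    (h1 : f a ≠ f b) (h2 : f a ≠ f c) (h3 : f a ≠ f d) (h4 : f a ≠ f e)
    (h5 : f b ≠ f c) (h6 : f b ≠ f d) (h7 : f b ≠ f e) (h8 : f c ≠ f d) (h9 : f c ≠ f e)
    (h10 : f d ≠ f e) : ({a, b, c, d, e} : Finset (Perm X)).card = 5 := by
  have k : ∀ {x y : Perm X}, f x ≠ f y → x ≠ y := fun h h' => h (by rw [h'])
  rw [Finset.card_insert_of_notMem, Finset.card_insert_of_notMem, Finset.card_insert_of_notMem,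
    Finset.card_insert_of_notMem, Finset.card_singleton]
  · rw [Finset.mem_singleton]
    exact k h10
  · rw [Finset.mem_insert, Finset.mem_singleton, not_or]
    exact ⟨k h8, k h9⟩
  · rw [Finset.mem_insert, Finset.mem_insert, Finset.mem_singleton, not_or, not_or]
    exact ⟨k h5, k h6, k h7⟩
  · rw [Finset.mem_insert, Finset.mem_insert, Finset.mem_insert, Finset.mem_singleton, not_or,
      not_or, not_or]
    exact ⟨k h1, k h2, k h3, k h4⟩

/-- the part of `g` on the orbit of `x` -/
theorem exists_cyc (g : Perm X) (x : X) : ∃ c : Perm X, (∀ y, g.SameCycle x y → c y = g y) ∧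
    (∀ y, ¬ g.SameCycle x y → c y = y) := by
  classical
  refine ⟨g.cycleOf x, fun y hy => hy.cycleOf_apply, fun y hy => ?_⟩
  exact cycleOf_apply_of_not_sameCycle hy

theorem cyc_comm {g c : Perm X} {x : X} (h1 : ∀ y, g.SameCycle x y → c y = g y)
    (h2 : ∀ y, ¬ g.SameCycle x y → c y = y) : c * g = g * c ∧ c ∈ young g := by
  classical
  constructor
  · ext z
    rw [Perm.mul_apply, Perm.mul_apply]
    by_cases h : g.SameCycle x z
    · rw [h1 _ (sameCycle_apply_right.2 h), h1 _ h]
    · rw [h2 _ (fun h' => h (sameCycle_apply_right.1 h')), h2 _ h]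
  · intro z
    by_cases h : g.SameCycle x z
    · rw [h1 _ h]
      exact sameCycle_apply_right.2 SameCycle.rfl
    · rw [h2 _ h]

/-- two nontrivial orbits, one of length at least three -/
theorem many_two {g : Perm X} {x y : X} (hx : g (g x) ≠ x) (hy : g y ≠ y)
    (hxy : ¬ g.SameCycle x y) : Many 5 g := by
  obtain ⟨c, h1, h2⟩ := exists_cyc g x
  obtain ⟨hc, hcy⟩ := cyc_comm h1 h2
  have hx1 : g x ≠ x := fun h => hx (by rw [h, h])
  have hx2 : g (g x) ≠ g x := fun h => hx1 (g.injective h)
  have e1 : c x = g x := h1 x SameCycle.rfl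
  have e2 : c (g x) = g (g x) := h1 _ (sameCycle_apply_right.2 SameCycle.rfl)
  have e3 : c y = y := h2 y hxy
  have e4 : c (g y) = g y := h2 _ fun h => hxy (sameCycle_apply_right.1 h)
  have hgg := self_young g
  refine ⟨{1, c, c * c, g, c * g}, ?_, ?_, ?_⟩
  · refine five_card (fun s => (s x, s y, x)) ?_ ?_ ?_ ?_ ?_ ?_ ?_ ?_ ?_ ?_ <;>
    simp only [Perm.one_apply, Perm.mul_apply, e1, e2, e3, e4, ne_eq, Prod.mk.injEq, not_and]
    · exact fun h => absurd h.symm hx1
    · exact fun h => absurd h.symm hx
    · exact fun h => absurd h.symm hx1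
    · exact fun h => absurd h.symm hx
    · exact fun h => absurd h.symm hx2
    · exact fun _ h => absurd h.symm hy
    · exact fun h => absurd h.symm hx2
    · exact fun h => absurd h hx2
    · exact fun _ h => absurd h.symm hy
    · exact fun h => absurd h.symm hx2
  · intro s hs
    simp only [Finset.mem_insert, Finset.mem_singleton] at hs
    rcases hs with rfl | rfl | rfl | rfl | rfl
    · exact (young g).one_mem
    · exact hcy
    · exact (young g).mul_mem hcy hcy
    · exact hgg
    · exact (young g).mul_mem hcy hgg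
  · intro s hs
    simp only [Finset.mem_insert, Finset.mem_singleton] at hs
    rcases hs with rfl | rfl | rfl | rfl | rfl
    · rw [one_mul, mul_one]
    · exact hc
    · rw [mul_assoc, hc, ← mul_assoc, hc, mul_assoc]
    · rfl
    · rw [← mul_assoc, ← hc]

theorem sw_comm {g : Perm X} (hg : ∀ x, g (g x) = x) (x : X) :
    swap x (g x) * g = g * swap x (g x) ∧ swap x (g x) ∈ young g := by
  constructor
  · have h1 : g * swap x (g x) * g⁻¹ = swap x (g x) := by
      rw [← swap_apply_apply, hg, Equiv.swap_comm]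
    rw [mul_inv_eq_iff_eq_mul] at h1
    exact h1.symm
  · intro z
    by_cases h : z = x
    · rw [h, swap_apply_left]
      exact sameCycle_apply_right.2 SameCycle.rfl
    · by_cases h' : z = g x
      · rw [h', swap_apply_right]
        exact (sameCycle_apply_right.2 SameCycle.rfl).symm
      · rw [swap_apply_of_ne_of_ne h h']

/-- three orbits of length two -/
theorem many_three {g : Perm X} (hg : ∀ x, g (g x) = x) {x y z : X} (hx : g x ≠ x) (hy : g y ≠ y)
    (hz : g z ≠ z) (h1 : y ≠ x) (h2 : y ≠ g x) (h3 : z ≠ x) (h4 : z ≠ g x) (h5 : z ≠ y)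
    (h6 : z ≠ g y) : Many 5 g := by
  obtain ⟨a1, a2⟩ := sw_comm hg x
  obtain ⟨b1, b2⟩ := sw_comm hg y
  have hgg := self_young g
  have k1 : x ≠ g y := fun h => h2 (by rw [h, hg])
  have e1 : swap x (g x) x = g x := swap_apply_left _ _
  have e2 : swap x (g x) y = y := swap_apply_of_ne_of_ne h1 h2
  have e3 : swap x (g x) z = z := swap_apply_of_ne_of_ne h3 h4
  have e4 : swap y (g y) x = x := swap_apply_of_ne_of_ne (Ne.symm h1) k1
  have e5 : swap y (g y) y = g y := swap_apply_left _ _
  have e6 : swap y (g y) z = z := swap_apply_of_ne_of_ne h5 h6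
  have e7 : swap x (g x) (g y) = g y :=
    swap_apply_of_ne_of_ne (Ne.symm k1) (fun h => h1 (g.injective h))
  refine ⟨{1, swap x (g x), swap y (g y), swap x (g x) * swap y (g y), g}, ?_, ?_, ?_⟩
  · refine five_card (fun s => (s x, s y, s z)) ?_ ?_ ?_ ?_ ?_ ?_ ?_ ?_ ?_ ?_ <;>
    simp only [Perm.one_apply, Perm.mul_apply, e1, e2, e3, e4, e5, e6, e7, ne_eq, Prod.mk.injEq,
      not_and]
    · exact fun h => absurd h.symm hx
    · exact fun _ h => absurd h.symm hy
    · exact fun h => absurd h.symm hx
    · exact fun h => absurd h.symm hx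
    · exact fun h => absurd h hx
    · exact fun _ h => absurd h.symm hy
    · exact fun _ h => absurd h.symm hy
    · exact fun h => absurd h.symm hx
    · exact fun h => absurd h.symm hx
    · exact fun _ _ h => absurd h.symm hz
  · intro s hs
    simp only [Finset.mem_insert, Finset.mem_singleton] at hs
    rcases hs with rfl | rfl | rfl | rfl | rfl
    · exact (young g).one_mem
    · exact a2
    · exact b2
    · exact (young g).mul_mem a2 b2
    · exact hgg
  · intro s hs
    simp only [Finset.mem_insert, Finset.mem_singleton] at hs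
    rcases hs with rfl | rfl | rfl | rfl | rfl
    · rw [one_mul, mul_one]
    · exact a1
    · exact b1
    · rw [mul_assoc, b1, ← mul_assoc, a1, mul_assoc]
    · rfl

/-- a three-cycle -/
theorem three_form {g : Perm X} {x : X} (h1 : g (g x) ≠ x) (h3 : g (g (g x)) = x)
    (hfix : ∀ y, y ≠ x → y ≠ g x → y ≠ g (g x) → g y = y) :
    g = swap x (g x) * swap (g x) (g (g x)) := by
  have k1 : g x ≠ x := fun h => h1 (by rw [h, h])
  have k2 : g (g x) ≠ g x := fun h => k1 (g.injective h)
  ext y
  rw [Perm.mul_apply]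
  by_cases e1 : y = x
  · subst e1
    rw [swap_apply_of_ne_of_ne (Ne.symm k1) (Ne.symm h1), swap_apply_left]
  · by_cases e2 : y = g x
    · rw [e2, swap_apply_left, swap_apply_of_ne_of_ne h1 k2]
    · by_cases e3 : y = g (g x)
      · rw [e3, swap_apply_right, swap_apply_right, h3]
      · rw [swap_apply_of_ne_of_ne e2 e3, swap_apply_of_ne_of_ne e1 e2, hfix y e1 e2 e3]

/-- a four-cycle -/
theorem four_form {g : Perm X} {x : X} (h1 : g (g x) ≠ x) (h3 : g (g (g x)) ≠ x)
    (h4 : g (g (g (g x))) = x)
    (hfix : ∀ y, y ≠ x → y ≠ g x → y ≠ g (g x) → y ≠ g (g (g x)) → g y = y) :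
    g = swap x (g x) * swap (g x) (g (g x)) * swap (g (g x)) (g (g (g x))) := by
  have k1 : g x ≠ x := fun h => h1 (by rw [h, h])
  have k2 : g (g x) ≠ g x := fun h => k1 (g.injective h)
  have k3 : g (g (g x)) ≠ g (g x) := fun h => k2 (g.injective h)
  have k4 : g (g (g x)) ≠ g x := fun h => h1 (g.injective h)
  ext y
  rw [Perm.mul_apply, Perm.mul_apply]
  by_cases e1 : y = x
  · subst e1
    rw [swap_apply_of_ne_of_ne (Ne.symm h1) (Ne.symm h3),
      swap_apply_of_ne_of_ne (Ne.symm k1) (Ne.symm h1), swap_apply_left]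
  · by_cases e2 : y = g x
    · rw [e2, swap_apply_of_ne_of_ne (Ne.symm k2) (Ne.symm k4), swap_apply_left,
        swap_apply_of_ne_of_ne h1 k2]
    · by_cases e3 : y = g (g x)
      · rw [e3, swap_apply_left, swap_apply_of_ne_of_ne k4 k3, swap_apply_of_ne_of_ne h3 k4]
      · by_cases e4 : y = g (g (g x))
        · rw [e4, swap_apply_right, swap_apply_right, swap_apply_right, h4]
        · rw [swap_apply_of_ne_of_ne e3 e4, swap_apply_of_ne_of_ne e2 e3,
            swap_apply_of_ne_of_ne e1 e2, hfix y e1 e2 e3 e4]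

/-- **The classification.** -/
theorem classify5 (g : Perm X) : g = 1 ∨ (∃ a b, a ≠ b ∧ g = swap a b) ∨
    (∃ a b c d, a ≠ b ∧ a ≠ c ∧ a ≠ d ∧ b ≠ c ∧ b ≠ d ∧ c ≠ d ∧ g = swap a b * swap c d) ∨
    (∃ a b c, a ≠ b ∧ a ≠ c ∧ b ≠ c ∧ g = swap a b * swap b c) ∨
    (∃ a b c d, a ≠ b ∧ a ≠ c ∧ a ≠ d ∧ b ≠ c ∧ b ≠ d ∧ c ≠ d ∧
      g = swap a b * swap b c * swap c d) ∨ Many 5 g := by
  by_cases h5 : 5 ≤ orderOf g
  · exact Or.inr (Or.inr (Or.inr (Or.inr (Or.inr (many_pow h5)))))
  by_cases h2 : ∃ x, g (g x) ≠ x
  · obtain ⟨x, hx⟩ := h2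
    have k1 : g x ≠ x := fun h => hx (by rw [h, h])
    have k2 : g (g x) ≠ g x := fun h => k1 (g.injective h)
    by_cases hy : ∃ y, g y ≠ y ∧ ¬ g.SameCycle x y
    · obtain ⟨y, hy1, hy2⟩ := hy
      exact Or.inr (Or.inr (Or.inr (Or.inr (Or.inr (many_two hx hy1 hy2)))))
    · push Not at hy
      have hmove : ∀ y, g y ≠ y → ∃ i < orderOf g, (g ^ i) x = y := fun y hy' =>
        (hy y hy').exists_pow_eq'
      have hpow : g ^ orderOf g = 1 := pow_orderOf_eq_one g
      have p2 : (g ^ 2) x = g (g x) := by rw [pow_two, Perm.mul_apply]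
      have p3 : (g ^ 3) x = g (g (g x)) := by
        rw [pow_succ', Perm.mul_apply, p2]
      have p4 : (g ^ 4) x = g (g (g (g x))) := by
        rw [pow_succ', Perm.mul_apply, p3]
      have hcases : orderOf g = 0 ∨ orderOf g = 1 ∨ orderOf g = 2 ∨ orderOf g = 3 ∨
          orderOf g = 4 := by omega
      rcases hcases with h | h | h | h | h
      · exact absurd h (orderOf_pos g).ne'
      · rw [h, pow_one] at hpow
        exact absurd (by rw [hpow]; rfl) k1
      · rw [h] at hpow
        exact absurd (by rw [← p2, hpow]; rfl) hx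
      · rw [h] at hpow hmove
        refine Or.inr (Or.inr (Or.inr (Or.inl ⟨x, g x, g (g x), Ne.symm k1, Ne.symm hx,
          Ne.symm k2, three_form hx (by rw [← p3, hpow]; rfl) fun y e1 e2 e3 => ?_⟩)))
        by_contra hne
        obtain ⟨i, hi, hiy⟩ := hmove y hne
        interval_cases i
        · exact e1 hiy.symm
        · rw [pow_one] at hiy
          exact e2 hiy.symm
        · rw [p2] at hiy
          exact e3 hiy.symm
      · rw [h] at hpow hmove
        have k3 : g (g (g x)) ≠ x := by
          intro h'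
          have h4 : g (g (g (g x))) = x := by rw [← p4, hpow]; rfl
          rw [h'] at h4
          exact k1 h4
        have k4 : g (g (g x)) ≠ g x := fun h => hx (g.injective h)
        have k5 : g (g (g x)) ≠ g (g x) := fun h => k2 (g.injective h)
        refine Or.inr (Or.inr (Or.inr (Or.inr (Or.inl ⟨x, g x, g (g x), g (g (g x)), Ne.symm k1,
          Ne.symm hx, Ne.symm k3, Ne.symm k2, Ne.symm k4, Ne.symm k5,
          four_form hx k3 (by rw [← p4, hpow]; rfl) fun y e1 e2 e3 e4 => ?_⟩))))
        by_contra hne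
        obtain ⟨i, hi, hiy⟩ := hmove y hne
        interval_cases i
        · exact e1 hiy.symm
        · rw [pow_one] at hiy
          exact e2 hiy.symm
        · rw [p2] at hiy
          exact e3 hiy.symm
        · rw [p3] at hiy
          exact e4 hiy.symm
  · push Not at h2
    by_cases h1 : ∃ x, g x ≠ x
    · obtain ⟨x, hx⟩ := h1
      by_cases hy : ∃ y, g y ≠ y ∧ y ≠ x ∧ y ≠ g x
      · obtain ⟨y, hy1, hy2, hy3⟩ := hy
        have n1 : x ≠ g y := fun h => hy3 (by rw [h, h2])
        have n2 : g x ≠ g y := fun h => hy2 (g.injective h).symm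
        by_cases hz : ∃ z, g z ≠ z ∧ z ≠ x ∧ z ≠ g x ∧ z ≠ y ∧ z ≠ g y
        · obtain ⟨z, hz1, hz2, hz3, hz4, hz5⟩ := hz
          exact Or.inr (Or.inr (Or.inr (Or.inr (Or.inr
            (many_three h2 hx hy1 hz1 hy2 hy3 hz2 hz3 hz4 hz5)))))
        · push Not at hz
          refine Or.inr (Or.inr (Or.inl ⟨x, g x, y, g y, Ne.symm hx, Ne.symm hy2, n1,
            Ne.symm hy3, n2, Ne.symm hy1, ?_⟩))
          ext z
          rw [Perm.mul_apply]
          by_cases e1 : z = x
          · subst e1
            rw [swap_apply_of_ne_of_ne (Ne.symm hy2) n1, swap_apply_left]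
          · by_cases e2 : z = g x
            · rw [e2, swap_apply_of_ne_of_ne (Ne.symm hy3) n2, swap_apply_right, h2]
            · by_cases e3 : z = y
              · rw [e3, swap_apply_left, swap_apply_of_ne_of_ne (Ne.symm n1) (Ne.symm n2)]
              · by_cases e4 : z = g y
                · rw [e4, swap_apply_right, swap_apply_of_ne_of_ne hy2 hy3, h2]
                · rw [swap_apply_of_ne_of_ne e3 e4, swap_apply_of_ne_of_ne e1 e2]
                  by_contra hne
                  exact e4 (hz z hne e1 e2 e3)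
      · push Not at hy
        refine Or.inr (Or.inl ⟨x, g x, Ne.symm hx, ?_⟩)
        ext z
        by_cases e1 : z = x
        · rw [e1, swap_apply_left]
        · by_cases e2 : z = g x
          · rw [e2, swap_apply_right, h2]
          · rw [swap_apply_of_ne_of_ne e1 e2]
            by_contra hne
            exact e2 (hy z hne e1)
    · push Not at h1
      exact Or.inl (Equiv.ext h1)

/-- **The classification**, three permutations. -/
theorem classify3 (g : Perm X) : g = 1 ∨ (∃ a b, a ≠ b ∧ g = swap a b) ∨ Many 3 g := by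
  by_cases h3 : 3 ≤ orderOf g
  · exact Or.inr (Or.inr (many_pow h3))
  have h2 : ∀ x, g (g x) = x := by
    have hcases : orderOf g = 0 ∨ orderOf g = 1 ∨ orderOf g = 2 := by omega
    have hpow : g ^ orderOf g = 1 := pow_orderOf_eq_one g
    intro x
    rcases hcases with h | h | h
    · exact absurd h (orderOf_pos g).ne'
    · rw [h, pow_one] at hpow
      rw [hpow]
      rfl
    · rw [h] at hpow
      have p2 : (g ^ 2) x = g (g x) := by rw [pow_two, Perm.mul_apply]
      rw [← p2, hpow]
      rfl
  by_cases h1 : ∃ x, g x ≠ x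
  · obtain ⟨x, hx⟩ := h1
    by_cases hy : ∃ y, g y ≠ y ∧ y ≠ x ∧ y ≠ g x
    · obtain ⟨y, hy1, hy2, hy3⟩ := hy
      refine Or.inr (Or.inr ⟨{1, swap x (g x), g}, ?_, ?_, ?_⟩)
      · have e2 : swap x (g x) y = y := swap_apply_of_ne_of_ne hy2 hy3
        rw [Finset.card_insert_of_notMem, Finset.card_insert_of_notMem, Finset.card_singleton]
        · rw [Finset.mem_singleton]
          intro h
          have := DFunLike.congr_fun h y
          rw [e2] at this
          exact hy1 this.symm
        · rw [Finset.mem_insert, Finset.mem_singleton, not_or]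
          constructor
          · intro h
            have := DFunLike.congr_fun h x
            rw [swap_apply_left] at this
            exact hx this.symm
          · intro h
            have := DFunLike.congr_fun h x
            exact hx this.symm
      · intro s hs
        simp only [Finset.mem_insert, Finset.mem_singleton] at hs
        rcases hs with rfl | rfl | rfl
        · exact (young g).one_mem
        · exact (sw_comm h2 x).2
        · exact self_young s
      · intro s hs
        simp only [Finset.mem_insert, Finset.mem_singleton] at hs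
        rcases hs with rfl | rfl | rfl
        · rw [one_mul, mul_one]
        · exact (sw_comm h2 x).1
        · rfl
    · push Not at hy
      refine Or.inr (Or.inl ⟨x, g x, Ne.symm hx, ?_⟩)
      ext z
      by_cases e1 : z = x
      · rw [e1, swap_apply_left]
      · by_cases e2 : z = g x
        · rw [e2, swap_apply_right, h2]
        · rw [swap_apply_of_ne_of_ne e1 e2]
          by_contra hne
          exact e2 (hy z hne e1)
  · push Not at h1
    exact Or.inl (Equiv.ext h1)

end

end Pool.Agent.W353.SN
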