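import Pool.Agent.W353.SN.Vals
import Pool.Agent.W353.SN.Step
import Pool.Agent.W353.SN.Classify

/-! Bounded class functions on symmetric groups with integral mean values on the subgroups are linear
combinations of the trivial and the sign character. -/

set_option autoImplicit false
set_option linter.unusedSectionVars false

namespace Pool.Agent.W353.SN

open Equiv Equiv.Perm

section
variable {X : Type} [Fintype X] [DecidableEq X]

/-- the embedding of the product of two symmetric groups on four letters -/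
noncomputable def jj (e : Fin 4 ⊕ Fin 4 ↪ X) : Perm (Fin 4) × Perm (Fin 4) →* Perm X :=
  (viaEmbeddingHom e).comp (sumCongrHom (Fin 4) (Fin 4))

theorem jj_inj (e : Fin 4 ⊕ Fin 4 ↪ X) : Function.Injective (jj e) :=
  (viaEmbeddingHom_injective e).comp sumCongrHom_injective

theorem via_swap (e : Fin 4 ⊕ Fin 4 ↪ X) (a b : Fin 4 ⊕ Fin 4) :
    viaEmbeddingHom e (swap a b) = swap (e a) (e b) := by
  ext y
  rw [viaEmbeddingHom_apply]
  by_cases h : y ∈ Set.range e
  · obtain ⟨z, rfl⟩ := h
    rw [viaEmbedding_apply, e.injective.swap_apply]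
  · rw [viaEmbedding_apply_of_notMem _ _ _ h, swap_apply_of_ne_of_ne]
    · rintro rfl
      exact h ⟨a, rfl⟩
    · rintro rfl
      exact h ⟨b, rfl⟩

theorem jj_swap (e : Fin 4 ⊕ Fin 4 ↪ X) (a b : Fin 4) :
    jj e (swap a b, 1) = swap (e (Sum.inl a)) (e (Sum.inl b)) := by
  rw [← via_swap]
  change viaEmbeddingHom e (Perm.sumCongr (swap a b) 1) = _
  rw [Perm.sumCongr_swap_one]

theorem jj_inl (e : Fin 4 ⊕ Fin 4 ↪ X) (a b : Perm (Fin 4)) (i : Fin 4) :
    jj e (a, b) (e (Sum.inl i)) = e (Sum.inl (a i)) := by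
  change viaEmbeddingHom e (Perm.sumCongr a b) (e (Sum.inl i)) = _
  rw [viaEmbeddingHom_apply, viaEmbedding_apply]
  rfl

theorem jj_inr (e : Fin 4 ⊕ Fin 4 ↪ X) (a b : Perm (Fin 4)) (i : Fin 4) :
    jj e (a, b) (e (Sum.inr i)) = e (Sum.inr (b i)) := by
  change viaEmbeddingHom e (Perm.sumCongr a b) (e (Sum.inr i)) = _
  rw [viaEmbeddingHom_apply, viaEmbedding_apply]
  rfl

theorem jj_out (e : Fin 4 ⊕ Fin 4 ↪ X) (a b : Perm (Fin 4)) {x : X} (hx : x ∉ Set.range e) :
    jj e (a, b) x = x := by
  change viaEmbeddingHom e (Perm.sumCongr a b) x = _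
  rw [viaEmbeddingHom_apply, viaEmbedding_apply_of_notMem _ _ _ hx]

theorem jj_zpow (e : Fin 4 ⊕ Fin 4 ↪ X) (u v : Perm (Fin 4)) (n : ℤ) :
    jj e (u, v) ^ n = jj e (u ^ n, v ^ n) := by
  rw [← map_zpow]
  rfl

/-- the Young subgroup of a product -/
theorem young_jj (e : Fin 4 ⊕ Fin 4 ↪ X) (u v : Perm (Fin 4)) (h : Perm X) :
    h ∈ young (jj e (u, v)) ↔ ∃ a ∈ young u, ∃ b ∈ young v, jj e (a, b) = h := by
  constructor
  · intro hh
    have h1 : ∀ i, ∃ j, u.SameCycle i j ∧ h (e (Sum.inl i)) = e (Sum.inl j) := by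
      intro i
      obtain ⟨n, hn⟩ := hh (e (Sum.inl i))
      rw [jj_zpow, jj_inl] at hn
      exact ⟨(u ^ n) i, ⟨n, rfl⟩, hn.symm⟩
    have h2 : ∀ i, ∃ j, v.SameCycle i j ∧ h (e (Sum.inr i)) = e (Sum.inr j) := by
      intro i
      obtain ⟨n, hn⟩ := hh (e (Sum.inr i))
      rw [jj_zpow, jj_inr] at hn
      exact ⟨(v ^ n) i, ⟨n, rfl⟩, hn.symm⟩
    choose f hf1 hf2 using h1
    choose g hg1 hg2 using h2
    have hfi : Function.Injective f := by
      intro i j hij
      have h3 : h (e (Sum.inl i)) = h (e (Sum.inl j)) := by rw [hf2, hf2, hij]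
      exact Sum.inl_injective (e.injective (h.injective h3))
    have hgi : Function.Injective g := by
      intro i j hij
      have h3 : h (e (Sum.inr i)) = h (e (Sum.inr j)) := by rw [hg2, hg2, hij]
      exact Sum.inr_injective (e.injective (h.injective h3))
    refine ⟨Equiv.ofBijective f (Finite.injective_iff_bijective.1 hfi), hf1,
      Equiv.ofBijective g (Finite.injective_iff_bijective.1 hgi), hg1, ?_⟩
    ext x
    by_cases hx : x ∈ Set.range e
    · obtain ⟨i | i, rfl⟩ := hx
      · rw [jj_inl, hf2]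
        rfl
      · rw [jj_inr, hg2]
        rfl
    · rw [jj_out e _ _ hx]
      obtain ⟨n, hn⟩ := hh x
      rw [jj_zpow, jj_out e _ _ hx] at hn
      exact hn
  · rintro ⟨a, ha, b, hb, rfl⟩ x
    by_cases hx : x ∈ Set.range e
    · obtain ⟨i | i, rfl⟩ := hx
      · obtain ⟨n, hn⟩ := ha i
        exact ⟨n, by rw [jj_zpow, jj_inl, jj_inl, hn]⟩
      · obtain ⟨n, hn⟩ := hb i
        exact ⟨n, by rw [jj_zpow, jj_inr, jj_inr, hn]⟩
    · rw [jj_out e _ _ hx]

/-- generators of the Young subgroups -/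
def yW : Fin 5 → Perm (Fin 4) := ![1, pt, pz, pc, pq]

/-- labels of the orbits -/
def yL : Fin 5 → Fin 4 → Fin 4 :=
  ![![0, 1, 2, 3], ![0, 0, 2, 3], ![0, 0, 2, 2], ![0, 0, 0, 3], ![0, 0, 0, 0]]

theorem yW_same (y : Fin 5) (i j : Fin 4) : (yW y).SameCycle i j ↔ yL y i = yL y j := by
  constructor
  · intro hij
    have h0 : ∀ (y : Fin 5) (k : Fin 4), yL y (yW y k) = yL y k := by
      decide
    have h2 : ∀ (n : ℕ) (k : Fin 4), yL y (((yW y) ^ n) k) = yL y k := by
      intro n
      induction n with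
      | zero => intro k; rfl
      | succ n ih =>
        intro k
        rw [pow_succ, Perm.mul_apply, ih, h0]
    obtain ⟨m, -, hm⟩ := hij.exists_pow_eq'
    rw [← hm, h2]
  · intro h
    have h1 : ∀ (y : Fin 5) (i j : Fin 4), yL y i = yL y j →
        ∃ k ∈ Finset.range 4, ((yW y) ^ k) i = j := by
      decide
    obtain ⟨k, -, hk⟩ := h1 y i j h
    exact ⟨k, by rw [zpow_natCast, hk]⟩

theorem mem_yS (y : Fin 5) (a : Perm (Fin 4)) : a ∈ yS y ↔ a ∈ young (yW y) := by
  rw [mem_young]
  simp only [yW_same]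
  revert y a
  decide

theorem yint_jj {θ : Perm X → ℝ} (hy : YMean θ) (e : Fin 4 ⊕ Fin 4 ↪ X) :
    YInt fun x => θ (jj e x) := by
  classical
  intro y y'
  obtain ⟨m, hm⟩ := hy (jj e (yW y, yW y'))
  refine ⟨m, ?_⟩
  let f : {x : Perm (Fin 4) × Perm (Fin 4) // x ∈ yS y ×ˢ yS y'} → young (jj e (yW y, yW y')) :=
    fun x => ⟨jj e x.1, (young_jj e _ _ _).2 ⟨x.1.1, (mem_yS y _).1 (Finset.mem_product.1 x.2).1,
      x.1.2, (mem_yS y' _).1 (Finset.mem_product.1 x.2).2, rfl⟩⟩
  have hf : Function.Bijective f := by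
    constructor
    · intro x x' h
      exact Subtype.ext (jj_inj e (congrArg Subtype.val h))
    · rintro ⟨h, hh⟩
      obtain ⟨a, ha, b, hb, hab⟩ := (young_jj e _ _ _).1 hh
      exact ⟨⟨(a, b), Finset.mem_product.2 ⟨(mem_yS y _).2 ha, (mem_yS y' _).2 hb⟩⟩,
        Subtype.ext hab⟩
  have hcard : Nat.card (young (jj e (yW y, yW y'))) = (yS y).card * (yS y').card := by
    rw [← Nat.card_eq_of_bijective f hf, Nat.card_eq_fintype_card, Fintype.card_coe,
      Finset.card_product]
  rw [hcard] at hm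
  rw [← hm, ← Finset.sum_product']
  have h1 : ∑ᶠ x : {x : Perm (Fin 4) × Perm (Fin 4) // x ∈ yS y ×ˢ yS y'}, θ (jj e x.1) =
      ∑ᶠ h : young (jj e (yW y, yW y')), θ h :=
    finsum_eq_of_bijective f hf fun x => rfl
  rw [← h1, finsum_eq_sum_of_fintype]
  exact (Finset.sum_coe_sort (yS y ×ˢ yS y') fun x => θ (jj e x)).symm

variable {θ : Perm X → ℝ} (hcl : ∀ g u, θ (u * g * u⁻¹) = θ g) (hyo : YMean θ)

include hcl hyo in
/-- values on small permutations -/
theorem small (hb : ∀ g, |θ g| ≤ 2) (hX : 8 ≤ Fintype.card X) {a b c d : X} (h1 : a ≠ b)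
    (h2 : a ≠ c) (h3 : a ≠ d) (h4 : b ≠ c) (h5 : b ≠ d) (h6 : c ≠ d) :
    (∃ A T : ℤ, θ 1 = A ∧ θ (swap a b) = T) ∧ θ (swap a b * swap c d) = θ 1 ∧
      θ (swap a b * swap b c) = θ 1 ∧ θ (swap a b * swap b c * swap c d) = θ (swap a b) := by
  classical
  -- the embedding
  set s : Finset X := {a, b, c, d} with hs
  have hsc : s.card = 4 := by
    rw [hs, Finset.card_insert_of_notMem, Finset.card_insert_of_notMem,
      Finset.card_insert_of_notMem, Finset.card_singleton]
    · simp [h6]
    · simp [h4, h5]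
    · simp [h1, h2, h3]
  have hcomp : 4 ≤ (Finset.univ \ s).card := by
    rw [Finset.card_sdiff_of_subset (Finset.subset_univ s), hsc, Finset.card_univ]
    omega
  obtain ⟨f, hf⟩ : ∃ f : Fin 4 ↪ X, ∀ i, f i ∉ s := by
    obtain ⟨t, ht, htc⟩ := Finset.exists_subset_card_eq hcomp
    let e0 : Fin 4 ≃ t := (Fintype.equivFinOfCardEq (by rw [Fintype.card_coe, htc])).symm
    refine ⟨⟨fun i => (e0 i : X), fun i j hij => e0.injective (Subtype.ext hij)⟩, fun i => ?_⟩
    exact (Finset.mem_sdiff.1 (ht (e0 i).2)).2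
  have hg : Function.Injective (![a, b, c, d] : Fin 4 → X) := by
    intro i j hij
    fin_cases i <;> fin_cases j <;> simp at hij ⊢ <;>
      first | exact h1 hij | exact h2 hij | exact h3 hij | exact h4 hij | exact h5 hij |
        exact h6 hij | exact h1 hij.symm | exact h2 hij.symm | exact h3 hij.symm |
        exact h4 hij.symm | exact h5 hij.symm | exact h6 hij.symm
  have hgs : ∀ i, (![a, b, c, d] : Fin 4 → X) i ∈ s := by
    intro i
    rw [hs]
    fin_cases i <;> simp
  let e : Fin 4 ⊕ Fin 4 ↪ X :=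
    ⟨Sum.elim ![a, b, c, d] f, Function.Injective.sumElim hg f.injective fun i j h =>
      hf j (by rw [← h]; exact hgs i)⟩
  have v1 := jj_swap e 0 1
  have v2 := jj_swap e 2 3
  have v3 := jj_swap e 1 2
  have ea : e (Sum.inl 0) = a := rfl
  have eb : e (Sum.inl 1) = b := rfl
  have ec : e (Sum.inl 2) = c := rfl
  have ed : e (Sum.inl 3) = d := rfl
  rw [ea, eb] at v1
  rw [ec, ed] at v2
  rw [eb, ec] at v3
  have ht : jj e (pt, 1) = swap a b := v1
  have hz : jj e (pz, 1) = swap a b * swap c d := by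
    have : ((pz, 1) : Perm (Fin 4) × Perm (Fin 4)) = (swap 0 1, 1) * (swap 2 3, 1) := rfl
    rw [this, map_mul, v1, v2]
  have hc : jj e (pc, 1) = swap a b * swap b c := by
    have : ((pc, 1) : Perm (Fin 4) × Perm (Fin 4)) = (swap 0 1, 1) * (swap 1 2, 1) := rfl
    rw [this, map_mul, v1, v3]
  have hq : jj e (pq, 1) = swap a b * swap b c * swap c d := by
    have : ((pq, 1) : Perm (Fin 4) × Perm (Fin 4)) =
      (swap 0 1, 1) * (swap 1 2, 1) * (swap 2 3, 1) := rfl
    rw [this, map_mul, map_mul, v1, v2, v3]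
  have h11 : jj e (1, 1) = 1 := map_one (jj e)
  have hconj : ∀ x y u : Perm (Fin 4 ⊕ Fin 4), u * x * u⁻¹ = y →
      θ (viaEmbeddingHom e x) = θ (viaEmbeddingHom e y) := by
    intro x y u h
    rw [← h, map_mul, map_mul, map_inv, hcl]
  have key := vals (fun x => θ (jj e x)) (fun x y u => by
      have : ((u * x * u⁻¹, y) : Perm (Fin 4) × Perm (Fin 4)) = (u, 1) * (x, y) * (u, 1)⁻¹ := by
        ext1 <;> simp
      change θ (jj e (u * x * u⁻¹, y)) = θ (jj e (x, y))
      rw [this, map_mul, map_mul, map_inv, hcl]) (fun x y u => by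
      have : ((x, u * y * u⁻¹) : Perm (Fin 4) × Perm (Fin 4)) = (1, u) * (x, y) * (1, u)⁻¹ := by
        ext1 <;> simp
      change θ (jj e (x, u * y * u⁻¹)) = θ (jj e (x, y))
      rw [this, map_mul, map_mul, map_inv, hcl]) (fun x y => by
      refine hconj _ _ (sumComm (Fin 4) (Fin 4)) ?_
      ext z
      rcases z with z | z <;> rfl) (by
      refine hconj _ _ (swap (Sum.inl 2) (Sum.inr 0) * swap (Sum.inl 3) (Sum.inr 1)) ?_
      decide) (yint_jj hyo e) (fun x => hb _)
  simp only [h11, ht, hz, hc, hq] at key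
  exact key

open Classical in
/-- sums of signs over subgroups -/
theorem sum_sign (H : Subgroup (Perm X)) :
    ∑ᶠ h : H, ((sign (h : Perm X) : ℤ) : ℝ) = if (∀ h ∈ H, sign h = 1) then (Nat.card H : ℝ)
      else 0 := by
  classical
  let _ : Fintype H := Fintype.ofFinite H
  rw [finsum_eq_sum_of_fintype]
  split_ifs with hall
  · rw [Finset.sum_congr rfl fun h _ => by rw [hall h.1 h.2]]
    simp
  · push Not at hall
    obtain ⟨u, hu, hu1⟩ := hall
    have hu2 : sign u = -1 := (Int.units_eq_one_or (sign u)).resolve_left hu1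
    have h1 : ∑ h : H, ((sign (h : Perm X) : ℤ) : ℝ) =
        ∑ h : H, ((sign (((⟨u, hu⟩ : H) * h : H) : Perm X) : ℤ) : ℝ) :=
      (Equiv.sum_comp (Equiv.mulLeft (⟨u, hu⟩ : H)) fun h : H => ((sign (h : Perm X) : ℤ) : ℝ)).symm
    have h2 : ∑ h : H, ((sign (((⟨u, hu⟩ : H) * h : H) : Perm X) : ℤ) : ℝ) =
        -∑ h : H, ((sign (h : Perm X) : ℤ) : ℝ) := by
      rw [← Finset.sum_neg_distrib]
      refine Finset.sum_congr rfl fun h _ => ?_
      rw [Subgroup.coe_mul, Perm.sign_mul, hu2]
      simp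
    linarith

theorem sum_sub (H : Subgroup (Perm X)) (θ : Perm X → ℝ) (a b : ℤ) :
    ∑ᶠ h : H, (θ h - (a + b * ((sign (h : Perm X) : ℤ) : ℝ))) =
      ∑ᶠ h : H, θ h - (a * Nat.card H + b * ∑ᶠ h : H, ((sign (h : Perm X) : ℤ) : ℝ)) := by
  classical
  let _ : Fintype H := Fintype.ofFinite H
  rw [finsum_eq_sum_of_fintype, finsum_eq_sum_of_fintype, finsum_eq_sum_of_fintype,
    Finset.sum_sub_distrib, Finset.sum_add_distrib, Finset.sum_const, Finset.card_univ,
    nsmul_eq_mul, ← Finset.mul_sum, Nat.card_eq_fintype_card]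
  ring

theorem IntMean.young {θ : Perm X → ℝ} (h : IntMean θ) : YMean θ := fun g => h (SN.young g)

omit [DecidableEq X] in
theorem young_one : young (1 : Perm X) = ⊥ := by
  ext h
  rw [mem_young, Subgroup.mem_bot]
  constructor
  · intro h1
    ext x
    have h2 := h1 x
    rw [sameCycle_one] at h2
    exact h2.symm
  · rintro rfl x
    exact SameCycle.rfl

theorem young_swap {x y : X} : young (swap x y) = Subgroup.zpowers (swap x y) := by
  ext h
  rw [mem_young, Subgroup.mem_zpowers_iff]
  constructor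
  · intro h1
    -- points other than `x`, `y` are fixed
    have h2 : ∀ z, z ≠ x → z ≠ y → h z = z := by
      intro z hx hy
      have h3 := h1 z
      have h4 : (swap x y) z = z := swap_apply_of_ne_of_ne hx hy
      obtain ⟨n, hn⟩ := h3
      rw [← hn]
      exact Equiv.Perm.zpow_apply_eq_self_of_apply_eq_self h4 n
    have h5 : h x = x ∨ h x = y := by
      by_contra hcon
      push Not at hcon
      have h6 := h2 (h x) hcon.1 hcon.2
      exact hcon.1 (h.injective h6)
    have h5' : h y = x ∨ h y = y := by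
      by_contra hcon
      push Not at hcon
      have h6 := h2 (h y) hcon.1 hcon.2
      exact hcon.2 (h.injective h6)
    rcases h5 with h5 | h5
    · refine ⟨0, ?_⟩
      rw [zpow_zero]
      ext z
      rw [Perm.one_apply]
      by_cases hx : z = x
      · rw [hx, h5]
      · by_cases hy : z = y
        · rcases h5' with h5' | h5'
          · rw [hy, h5']
            have : h y = h x := by rw [h5', h5]
            exact (h.injective this)
          · rw [hy, h5']
        · rw [h2 z hx hy]
    · refine ⟨1, ?_⟩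
      rw [zpow_one]
      ext z
      by_cases hx : z = x
      · rw [hx, h5, swap_apply_left]
      · by_cases hy : z = y
        · rcases h5' with h5' | h5'
          · rw [hy, h5', swap_apply_right]
          · have : h y = h x := by rw [h5', h5]
            have h7 := h.injective this
            rw [hy, h7] at hx
            exact absurd rfl hx
        · rw [h2 z hx hy, swap_apply_of_ne_of_ne hx hy]
  · rintro ⟨n, rfl⟩ z
    exact ⟨n, rfl⟩

theorem int_sub {θ : Perm X → ℝ} (hy : YMean θ) (a b : ℤ) :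
    YMean fun g : Perm X => θ g - (a + b * ((sign g : ℤ) : ℝ)) := by
  classical
  intro g
  obtain ⟨m, hm⟩ := hy g
  refine ⟨m - a - b * (if (∀ h ∈ young g, sign h = 1) then 1 else 0), ?_⟩
  rw [sum_sub, hm, sum_sign]
  split_ifs with h
  · push_cast
    ring
  · push_cast
    ring

omit [DecidableEq X] in
theorem int_one {θ : Perm X → ℝ} (hy : YMean θ) : ∃ A : ℤ, θ 1 = A := by
  obtain ⟨A, hA⟩ := hy 1
  rw [young_one] at hA
  refine ⟨A, ?_⟩
  have h1 : ∑ᶠ h : (⊥ : Subgroup (Perm X)), θ h = θ 1 := by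
    rw [finsum_eq_single (fun h : (⊥ : Subgroup (Perm X)) => θ h) 1 fun h hh =>
      absurd (Subsingleton.elim h 1) hh]
    rfl
  rw [h1, Subgroup.card_bot] at hA
  rw [hA]
  simp

theorem int_swap {θ : Perm X → ℝ} (hyo : YMean θ) {x y : X} (hxy : x ≠ y) :
    ∃ m : ℤ, θ 1 + θ (swap x y) = m * 2 := by
  have hz : Nat.card (Subgroup.zpowers (swap x y)) = 2 := by
    rw [Nat.card_zpowers]
    exact orderOf_eq_prime (by rw [pow_two, swap_mul_self]) (fun h => by
      have := DFunLike.congr_fun h x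
      rw [swap_apply_left] at this
      exact hxy this.symm)
  obtain ⟨m, hm⟩ := hyo (swap x y)
  rw [young_swap] at hm
  refine ⟨m, ?_⟩
  rw [hz] at hm
  push_cast at hm
  rw [← hm]
  let f : Bool → Subgroup.zpowers (swap x y) :=
    fun c => if c then 1 else ⟨swap x y, Subgroup.mem_zpowers _⟩
  have hinj : Function.Injective f := by
    have hne1 : f true ≠ f false := by
      intro h
      have h1 : (1 : Perm X) = swap x y := congrArg Subtype.val h
      have := DFunLike.congr_fun h1 x
      rw [swap_apply_left] at this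
      exact hxy this
    intro c d hcd
    cases c <;> cases d
    · rfl
    · exact absurd hcd.symm hne1
    · exact absurd hcd hne1
    · rfl
  let e : Bool ≃ Subgroup.zpowers (swap x y) := Equiv.ofBijective f
    (Function.Injective.bijective_of_nat_card_le hinj (by
      rw [hz, Nat.card_eq_fintype_card, Fintype.card_bool]))
  rw [← finsum_comp_equiv e, finsum_eq_sum_of_fintype, Fintype.sum_bool]
  rfl

include hcl hyo in
/-- the reduction to small permutations -/
theorem reduce (a b : ℤ) {M : ℝ} (hM : ∀ g, |θ g - (a + b * ((sign g : ℤ) : ℝ))| ≤ M) {k : ℕ}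
    (hk : M < k) (hg : ∀ g, θ g = a + b * ((sign g : ℤ) : ℝ) ∨ Many k g) (g : Perm X) :
    θ g = a + b * ((sign g : ℤ) : ℝ) := by
  classical
  have hcyc : ∀ g : Perm X, cyc g ≤ Fintype.card X := by
    intro g
    unfold cyc
    rw [← Nat.card_eq_fintype_card]
    exact Nat.card_le_card_of_surjective (Quotient.mk (SameCycle.setoid g)) Quotient.exists_rep
  have key : ∀ n : ℕ, ∀ g : Perm X, Fintype.card X - cyc g = n →
      θ g - (a + b * ((sign g : ℤ) : ℝ)) = 0 := by
    intro n
    induction n using Nat.strong_induction_on with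
    | _ n ih =>
      intro g hn
      rcases hg g with h | ⟨S, hS, hS1, hS2⟩
      · rw [h, sub_self]
      · refine step (η := fun g => θ g - (a + b * ((sign g : ℤ) : ℝ))) (fun g u => ?_) hM g
          (int_sub hyo a b g) S hS1 hS2 (by rw [hS]; exact hk) fun h hh => ?_
        · change θ (u * g * u⁻¹) - (a + b * ((sign (u * g * u⁻¹) : ℤ) : ℝ)) =
            θ g - (a + b * ((sign g : ℤ) : ℝ))
          rw [hcl, Perm.sign_mul, Perm.sign_mul, sign_inv]
          have : sign u * sign g * sign u = sign g := by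
            rw [mul_comm (sign u) (sign g), mul_assoc]
            rcases Int.units_eq_one_or (sign u) with h | h <;> rw [h] <;> simp
          rw [this]
        · refine ih (Fintype.card X - cyc h) ?_ h rfl
          have h1 := hcyc h
          omega
  have := key _ g rfl
  linarith

include hcl hyo in
/-- **Bound less than `3/2`.** -/
theorem main_small {B : ℝ} (hB : B < 3 / 2) (hb : ∀ g, |θ g| ≤ B) :
    ∃ a b : ℤ, ∀ g, θ g = a + b * ((sign g : ℤ) : ℝ) := by
  classical
  obtain ⟨A, hA'⟩ := int_one hyo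
  have hAb : |A| ≤ 1 := by
    have h1 := hb 1
    rw [hA'] at h1
    have h2 : |(A : ℝ)| < 2 := by linarith
    have h3 : |A| < 2 := by exact_mod_cast h2
    omega
  by_cases hne : ∃ x y : X, x ≠ y
  · obtain ⟨x, y, hxy⟩ := hne
    -- the transposition
    have hT := int_swap hyo hxy
    obtain ⟨m, hm⟩ := hT
    set T : ℤ := 2 * m - A with hTd
    have hT' : θ (swap x y) = T := by
      rw [hTd]
      push_cast
      linarith
    have hTb : |T| ≤ 1 := by
      have h1 := hb (swap x y)
      rw [hT'] at h1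
      have h2 : |(T : ℝ)| < 2 := by linarith
      have h3 : |T| < 2 := by exact_mod_cast h2
      omega
    have hAT : A + T = 2 * m := by omega
    have hval : ∀ g : Perm X, |(m : ℝ) + ((A - m : ℤ) : ℝ) * ((sign g : ℤ) : ℝ)| ≤ 1 := by
      intro g
      rcases Int.units_eq_one_or (sign g) with h | h
      · rw [h]
        have : |m + (A - m) * 1| ≤ 1 := by
          have e : m + (A - m) * 1 = A := by ring
          rw [e]
          exact hAb
        exact_mod_cast this
      · rw [h]
        have : |m + (A - m) * (-1)| ≤ 1 := by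
          have e : m + (A - m) * (-1) = T := by omega
          rw [e]
          exact hTb
        exact_mod_cast this
    refine ⟨m, A - m, reduce hcl hyo m (A - m) (M := B + 1) (fun g => ?_) (k := 3) (by
      push_cast
      linarith) fun g => ?_⟩
    · exact (abs_sub _ _).trans (add_le_add (hb g) (hval g))
    · rcases classify3 g with h | ⟨a, b, hab, h⟩ | h
      · left
        rw [h, hA', Perm.sign_one]
        push_cast
        ring
      · left
        have hconj : IsConj (swap a b) (swap x y) := isConj_swap hab hxy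
        obtain ⟨u, hu⟩ := isConj_iff.1 hconj
        rw [h, sign_swap hab]
        rw [← hu, hcl] at hT'
        rw [hT', hTd]
        push_cast
        ring
      · exact Or.inr h
  · push Not at hne
    have hsub : Subsingleton (Perm X) := by
      have : Subsingleton X := ⟨hne⟩
      infer_instance
    refine ⟨A, 0, fun g => ?_⟩
    rw [Subsingleton.elim g 1, hA']
    simp

include hcl hyo in
/-- **Bound two.** -/
theorem main_two (hX : 8 ≤ Fintype.card X) (hb : ∀ g, |θ g| ≤ 2) :
    ∃ a b : ℤ, ∀ g, θ g = a + b * ((sign g : ℤ) : ℝ) := by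
  classical
  obtain ⟨t, ht, htc⟩ := Finset.exists_subset_card_eq (s := (Finset.univ : Finset X))
    (n := 4) (by rw [Finset.card_univ]; omega)
  let e0 : Fin 4 ≃ t := (Fintype.equivFinOfCardEq (by rw [Fintype.card_coe, htc])).symm
  have hne : ∀ i j : Fin 4, i ≠ j → (e0 i : X) ≠ e0 j := fun i j hij h =>
    hij (e0.injective (Subtype.ext h))
  obtain ⟨x, hx⟩ : ∃ x : X, x = ((e0 0 : t) : X) := ⟨_, rfl⟩
  obtain ⟨y, hy⟩ : ∃ y : X, y = ((e0 1 : t) : X) := ⟨_, rfl⟩
  have hxy : x ≠ y := by
    rw [hx, hy]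
    exact hne 0 1 (by decide)
  obtain ⟨⟨A, T, hA, hT⟩, -⟩ := small hcl hyo hb hX (hne 0 1 (by decide)) (hne 0 2 (by decide))
    (hne 0 3 (by decide)) (hne 1 2 (by decide)) (hne 1 3 (by decide)) (hne 2 3 (by decide))
  rw [← hx, ← hy] at hT
  have hpar : ∃ m : ℤ, A + T = 2 * m := by
    obtain ⟨m, hm⟩ := int_swap hyo hxy
    refine ⟨m, ?_⟩
    rw [hA, hT] at hm
    have h2 : A + T = m * 2 := by exact_mod_cast hm
    omega
  obtain ⟨m, hm⟩ := hpar
  have hA2 := int_bd hA (hb 1)
  have hT2 := int_bd hT (hb _)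
  have hval : ∀ g : Perm X, |(m : ℝ) + ((A - m : ℤ) : ℝ) * ((sign g : ℤ) : ℝ)| ≤ 2 := by
    intro g
    rcases Int.units_eq_one_or (sign g) with h | h
    · rw [h]
      have : |m + (A - m) * 1| ≤ 2 := by
        have e : m + (A - m) * 1 = A := by ring
        rw [e]
        exact abs_le.2 hA2
      exact_mod_cast this
    · rw [h]
      have : |m + (A - m) * (-1)| ≤ 2 := by
        have e : m + (A - m) * (-1) = T := by omega
        rw [e]
        exact abs_le.2 hT2
      exact_mod_cast this
  have hodd : ∀ a b : X, a ≠ b → θ (swap a b) = T := by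
    intro a b hab
    obtain ⟨u, hu⟩ := isConj_iff.1 (isConj_swap hab hxy)
    rw [← hT, ← hu, hcl]
  have hTm : (T : ℝ) = m + ((A - m : ℤ) : ℝ) * (-1) := by
    have : T = m + (A - m) * (-1) := by omega
    exact_mod_cast this
  have hAm : (A : ℝ) = m + ((A - m : ℤ) : ℝ) * 1 := by
    push_cast
    ring
  refine ⟨m, A - m, reduce hcl hyo m (A - m) (M := 2 + 2) (fun g => ?_) (k := 5) (by
    norm_num) fun g => ?_⟩
  · exact (abs_sub _ _).trans (add_le_add (hb g) (hval g))
  · rcases classify5 g with h | ⟨a, b, hab, h⟩ | ⟨a, b, c, d, h1, h2, h3, h4, h5, h6, h⟩ |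
      ⟨a, b, c, h1, h2, h4, h⟩ | ⟨a, b, c, d, h1, h2, h3, h4, h5, h6, h⟩ | h
    · left
      rw [h, hA, Perm.sign_one, hAm]
      push_cast
      ring
    · left
      rw [h, sign_swap hab, hodd a b hab, hTm]
      push_cast
      ring
    · left
      obtain ⟨-, k1, -, -⟩ := small hcl hyo hb hX h1 h2 h3 h4 h5 h6
      rw [h, k1, hA, Perm.sign_mul, sign_swap h1, sign_swap h6, hAm]
      push_cast
      ring
    · left
      have hd : ∃ d : X, d ∉ ({a, b, c} : Finset X) := by
        by_contra hcon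
        push Not at hcon
        have h7 : (Finset.univ : Finset X) ⊆ {a, b, c} := fun z _ => hcon z
        have h8 := Finset.card_le_card h7
        rw [Finset.card_univ] at h8
        have h9 : ({a, b, c} : Finset X).card ≤ 3 := Finset.card_le_three
        omega
      obtain ⟨d, hd⟩ := hd
      rw [Finset.mem_insert, Finset.mem_insert, Finset.mem_singleton, not_or, not_or] at hd
      obtain ⟨-, -, k1, -⟩ := small hcl hyo hb hX h1 h2 (Ne.symm hd.1) h4 (Ne.symm hd.2.1)
        (Ne.symm hd.2.2)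
      rw [h, k1, hA, Perm.sign_mul, sign_swap h1, sign_swap h4, hAm]
      push_cast
      ring
    · left
      obtain ⟨-, -, -, k1⟩ := small hcl hyo hb hX h1 h2 h3 h4 h5 h6
      rw [h, k1, hodd a b h1, Perm.sign_mul, Perm.sign_mul, sign_swap h1, sign_swap h4, sign_swap h6, hTm]
      push_cast
      ring
    · exact Or.inr h

end

end Pool.Agent.W353.SN
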