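import Pool.Agent.W353.NF.Burn

/-! Conjugation counts and the fields of groups of permutations of embeddings. -/

set_option autoImplicit false
set_option linter.unusedSectionVars false

namespace Pool.Agent.W353.SN

open Complex Filter Topology ComplexConjugate NumberField IsDedekindDomain Asymptotics
  Pool.Agent.W401.Cheb Pool.Agent.W540.BE Pool.Agent.W353.L1 Pool.Agent.W353.NF

section
variable {X : Type} [Finite X]

/-- the number of the permutations conjugating `x` to `g` -/
noncomputable def Dn (g x : Equiv.Perm X) : ℕ := Nat.card {z : Equiv.Perm X // z * x * z⁻¹ = g}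

theorem Dn_conj (g x u : Equiv.Perm X) : Dn g (u * x * u⁻¹) = Dn g x := by
  unfold Dn
  refine Nat.card_congr (Equiv.subtypeEquiv (Equiv.mulRight u) fun z => ?_)
  have h : z * (u * x * u⁻¹) * z⁻¹ = (z * u) * x * (z * u)⁻¹ := by group
  rw [h]
  rfl

theorem Dn_conj_left (g x u : Equiv.Perm X) : Dn (u * g * u⁻¹) x = Dn g x := by
  unfold Dn
  refine Nat.card_congr (Equiv.subtypeEquiv (Equiv.mulLeft u⁻¹) fun z => ?_)
  rw [Equiv.coe_mulLeft]
  constructor
  · intro h
    have e : (u⁻¹ * z) * x * (u⁻¹ * z)⁻¹ = u⁻¹ * (z * x * z⁻¹) * u := by group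
    rw [e, h]
    group
  · intro h
    have e : z * x * z⁻¹ = u * ((u⁻¹ * z) * x * (u⁻¹ * z)⁻¹) * u⁻¹ := by group
    rw [e, h]

theorem Dn_inv (g x : Equiv.Perm X) : Dn g x⁻¹ = Dn g x := by
  classical
  let _ : Fintype X := Fintype.ofFinite X
  have h : IsConj x x⁻¹ := by
    rw [Equiv.Perm.isConj_iff_cycleType_eq, Equiv.Perm.cycleType_inv]
  obtain ⟨u, hu⟩ := isConj_iff.1 h
  rw [← hu, Dn_conj]

theorem mean_Dn (g : Equiv.Perm X) : ∑ᶠ x : Equiv.Perm X, (Dn g x : ℝ) =
    Nat.card (Equiv.Perm X) := by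
  classical
  let _ : Fintype X := Fintype.ofFinite X
  rw [finsum_eq_sum_of_fintype, ← Nat.cast_sum]
  congr 1
  unfold Dn
  rw [← Nat.card_sigma]
  exact Nat.card_congr
    { toFun := fun y => y.2.1
      invFun := fun z => ⟨z⁻¹ * g * z, ⟨z, by group⟩⟩
      left_inv := fun y => Sigma.subtype_ext (by
        change y.2.1⁻¹ * g * y.2.1 = y.1
        have e := y.2.2
        have e2 : y.2.1⁻¹ * (y.2.1 * y.1 * y.2.1⁻¹) * y.2.1 = y.1 := by group
        rwa [e] at e2) rfl
      right_inv := fun z => rfl }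

theorem sum_Dn (H : Subgroup (Equiv.Perm X)) (x : Equiv.Perm X) :
    ∑ᶠ h : H, (Dn (h : Equiv.Perm X) x : ℝ) =
      Nat.card {z : Equiv.Perm X // z⁻¹ * x * z ∈ H} := by
  classical
  let _ : Fintype X := Fintype.ofFinite X
  let _ : Fintype H := Fintype.ofFinite H
  rw [finsum_eq_sum_of_fintype, ← Nat.cast_sum]
  congr 1
  unfold Dn
  rw [← Nat.card_sigma]
  exact Nat.card_congr
    { toFun := fun y => ⟨y.2.1⁻¹, by
        rw [inv_inv, y.2.2]
        exact y.1.2⟩
      invFun := fun z => ⟨⟨z.1⁻¹ * x * z.1, z.2⟩, ⟨z.1⁻¹, by rw [inv_inv]⟩⟩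
      left_inv := fun y => Sigma.subtype_ext (Subtype.ext (by
        change (y.2.1⁻¹)⁻¹ * x * y.2.1⁻¹ = y.1.1
        rw [inv_inv, y.2.2])) (inv_inv _)
      right_inv := fun z => Subtype.ext (inv_inv _) }

end

section
variable (K F : Type) [Field K] [NumberField K] [Field F] [NumberField F] [Algebra K F]

/-- the permutations of the embeddings -/
abbrev PX := Equiv.Perm (F →ₐ[K] AlgebraicClosure K)

/-- the field of a group of permutations -/
noncomputable def MH (H : Subgroup (PX K F)) : IntermediateField K (AlgebraicClosure K) :=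
  IntermediateField.fixedField (H.comap (act K F))

theorem comap_open (H : Subgroup (PX K F)) :
    IsOpen ((H.comap (act K F) : Subgroup (GK K)) : Set (GK K)) := by
  refine Subgroup.isOpen_mono ?_ (ker_act_open K F)
  intro σ hσ
  rw [Subgroup.mem_comap, (MonoidHom.mem_ker).1 hσ]
  exact H.one_mem

theorem fix_MH (H : Subgroup (PX K F)) : (MH K F H).fixingSubgroup = H.comap (act K F) :=
  InfiniteGalois.fixingSubgroup_fixedField
    ⟨H.comap (act K F), Subgroup.isClosed_of_isOpen _ (comap_open K F H)⟩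

theorem MH_finite (H : Subgroup (PX K F)) : FiniteDimensional K (MH K F H) := by
  rw [← InfiniteGalois.isOpen_iff_finite]
  have h := comap_open K F H
  rw [← fix_MH] at h
  exact h

theorem MH_nf (H : Subgroup (PX K F)) : NumberField (MH K F H) := by
  have := MH_finite K F H
  exact NumberField.of_module_finite K _

variable {K} in
/-- two automorphisms with the same restriction -/
theorem comp_val_iff (M : IntermediateField K (AlgebraicClosure K)) (α β : GK K) :
    (α : AlgebraicClosure K →ₐ[K] AlgebraicClosure K).comp M.val =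
      (β : AlgebraicClosure K →ₐ[K] AlgebraicClosure K).comp M.val ↔
    α⁻¹ * β ∈ M.fixingSubgroup := by
  rw [IntermediateField.mem_fixingSubgroup_iff]
  constructor
  · intro h x hx
    have h1 : α x = β x := DFunLike.congr_fun h (⟨x, hx⟩ : M)
    rw [AlgEquiv.mul_apply, ← h1]
    exact α.symm_apply_apply x
  · intro h
    refine AlgHom.ext fun x => ?_
    have h1 := h (x : AlgebraicClosure K) x.2
    rw [AlgEquiv.mul_apply] at h1
    have h2 := congrArg α h1
    have h3 : α (α⁻¹ (β (x : AlgebraicClosure K))) = β x := α.apply_symm_apply _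
    rw [h3] at h2
    exact h2.symm

/-- **The fixed embeddings of the field of a group of permutations.** -/
theorem fixn_MH (hs : Function.Surjective (act K F)) (H : Subgroup (PX K F))
    [NumberField (MH K F H)] (σ : GK K) :
    fixn K (MH K F H) σ * Nat.card H =
      Nat.card {z : PX K F // z⁻¹ * act K F σ * z ∈ H} := by
  classical
  choose ρ hρ using hs
  set M := MH K F H with hM
  let i : PX K F → (M →ₐ[K] AlgebraicClosure K) := fun z =>
    ((ρ z : GK K) : AlgebraicClosure K →ₐ[K] AlgebraicClosure K).comp M.val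
  have hmem : ∀ α : GK K, α ∈ M.fixingSubgroup ↔ act K F α ∈ H := by
    intro α
    rw [hM, fix_MH, Subgroup.mem_comap]
  have hi : ∀ z z', i z = i z' ↔ z⁻¹ * z' ∈ H := by
    intro z z'
    change ((ρ z : GK K) : AlgebraicClosure K →ₐ[K] AlgebraicClosure K).comp M.val =
      ((ρ z' : GK K) : AlgebraicClosure K →ₐ[K] AlgebraicClosure K).comp M.val ↔ _
    rw [comp_val_iff, hmem, map_mul, map_inv, hρ, hρ]
  have hfix : ∀ z, act K M σ (i z) = i z ↔ z⁻¹ * act K F σ * z ∈ H := by
    intro z
    have e : act K M σ (i z) =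
        ((σ * ρ z : GK K) : AlgebraicClosure K →ₐ[K] AlgebraicClosure K).comp M.val := rfl
    rw [e, eq_comm]
    change ((ρ z : GK K) : AlgebraicClosure K →ₐ[K] AlgebraicClosure K).comp M.val =
      ((σ * ρ z : GK K) : AlgebraicClosure K →ₐ[K] AlgebraicClosure K).comp M.val ↔ _
    rw [comp_val_iff, hmem, map_mul, map_mul, map_inv, hρ, mul_assoc]
  have hsurj : ∀ j : M →ₐ[K] AlgebraicClosure K, ∃ z, i z = j := by
    intro j
    obtain ⟨α, hα⟩ := act_trans K M M.val j
    refine ⟨act K F α, ?_⟩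
    rw [← hα, act_apply]
    change ((ρ (act K F α) : GK K) : AlgebraicClosure K →ₐ[K] AlgebraicClosure K).comp M.val = _
    rw [comp_val_iff, hmem, map_mul, map_inv, hρ, inv_mul_cancel]
    exact H.one_mem
  choose s hsec using hsurj
  unfold fixn
  rw [← Nat.card_prod]
  refine Nat.card_congr
    { toFun := fun y => ⟨s y.1.1 * (y.2 : PX K F), ?_⟩
      invFun := fun z => (⟨i z.1, (hfix z.1).2 z.2⟩, ⟨(s (i z.1))⁻¹ * z.1, ?_⟩)
      left_inv := ?_
      right_inv := ?_ }
  · have h1 : i (s y.1.1 * (y.2 : PX K F)) = y.1.1 := by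
      rw [← hsec y.1.1, eq_comm, hi, hsec, inv_mul_cancel_left]
      exact y.2.2
    rw [← hfix, h1]
    exact y.1.2
  · rw [← hi]
    exact hsec _
  · rintro ⟨⟨j, hj⟩, ⟨h, hh⟩⟩
    have h1 : i (s j * h) = j := by
      have h2 : i (s j) = i (s j * h) := (hi _ _).2 (by rw [inv_mul_cancel_left]; exact hh)
      rw [← h2]
      exact hsec j
    refine Prod.ext (Subtype.ext h1) (Subtype.ext ?_)
    change (s (i (s j * h)))⁻¹ * (s j * h) = h
    rw [h1, inv_mul_cancel_left]
  · rintro ⟨z, hz⟩
    refine Subtype.ext ?_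
    change s (i z) * ((s (i z))⁻¹ * z) = z
    rw [mul_inv_cancel_left]

theorem fixn_sum (hs : Function.Surjective (act K F)) (H : Subgroup (PX K F))
    [NumberField (MH K F H)] (σ : GK K) :
    ∑ᶠ h : H, (Dn (h : PX K F) (act K F σ) : ℝ) = Nat.card H * fixn K (MH K F H) σ := by
  rw [sum_Dn, ← fixn_MH K F hs]
  push_cast
  ring

/-- the mean value of the conjugation counts -/
theorem avR_Dn (hs : Function.Surjective (act K F)) (g : PX K F) :
    avR (act K F).ker (fun q => |(Dn g (act K F q.out) : ℝ)|) = 1 := by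
  classical
  rw [avR_ker (act K F) fun x => |(Dn g x : ℝ)|]
  have hr : (act K F).range = ⊤ := MonoidHom.range_eq_top.2 hs
  have h1 : ∑ᶠ h : (act K F).range, |(Dn g (h : PX K F) : ℝ)| = ∑ᶠ x : PX K F, (Dn g x : ℝ) := by
    refine finsum_eq_of_bijective (fun h : (act K F).range => (h : PX K F)) ⟨Subtype.val_injective,
      fun x => ⟨⟨x, by rw [hr]; trivial⟩, rfl⟩⟩ fun h => ?_
    rw [abs_of_nonneg (Nat.cast_nonneg _)]
  have h2 : Nat.card (act K F).range = Nat.card (PX K F) := by
    rw [hr]
    exact Nat.card_congr Subgroup.topEquiv.toEquiv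
  rw [h1, mean_Dn, h2]
  have h3 : (Nat.card (PX K F) : ℝ) ≠ 0 := by exact_mod_cast Nat.card_pos.ne'
  exact inv_mul_cancel₀ h3

/-- fields below the closure are fields of groups of permutations -/
theorem eq_MH {M : IntermediateField K (AlgebraicClosure K)}
    (hM : M ≤ ⨆ i : F →ₐ[K] AlgebraicClosure K, i.fieldRange) :
    M = MH K F (M.fixingSubgroup.map (act K F)) := by
  have hker : (act K F).ker ≤ M.fixingSubgroup := by
    have h1 : (⨆ i : F →ₐ[K] AlgebraicClosure K, i.fieldRange) ≤
        IntermediateField.fixedField (act K F).ker := by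
      refine iSup_le fun i => ?_
      rintro _ ⟨x, rfl⟩
      rintro ⟨σ, hσ⟩
      have h2 : act K F σ i = i := by rw [(MonoidHom.mem_ker).1 hσ]; rfl
      exact DFunLike.congr_fun h2 x
    exact (IntermediateField.le_iff_le _ _).1 (hM.trans h1)
  unfold MH
  rw [Subgroup.comap_map_eq_self hker, InfiniteGalois.fixedField_fixingSubgroup]

theorem fixing_closure : (⨆ i : F →ₐ[K] AlgebraicClosure K, i.fieldRange :
    IntermediateField K (AlgebraicClosure K)).fixingSubgroup.map (act K F) = ⊥ := by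
  rw [Subgroup.map_eq_bot_iff]
  intro σ hσ
  rw [MonoidHom.mem_ker]
  refine Equiv.ext fun i => AlgHom.ext fun x => ?_
  rw [IntermediateField.mem_fixingSubgroup_iff] at hσ
  exact hσ (i x) (le_iSup (fun i : F →ₐ[K] AlgebraicClosure K => i.fieldRange) i ⟨x, rfl⟩)

end

end Pool.Agent.W353.SN
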